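import Pool.Agent.Helper47.RR.Defs

/-!
# RR-A: Riemann's inequality for one-variable function fields over an algebraically closed field
-/

set_option autoImplicit false
set_option linter.style.haveILetI false

namespace Pool.Agent.Helper47.RR

open Pool.Agent.Helper16 Pool.Agent.Helper45.FF Pool.Agent.Helper45.S4 Polynomial IntermediateField

variable {k L : Type} [Field k] [Field L] [Algebra k L]

theorem degD_zero : degD (0 : Dv k L) = 0 := Finsupp.sum_zero_index

theorem degD_add (D E : Dv k L) : degD (D + E) = degD D + degD E :=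
  Finsupp.sum_add_index' (fun _ => rfl) (fun _ _ _ => rfl)

theorem degD_single (v : Place k L) (n : ℤ) : degD (Finsupp.single v n : Dv k L) = n :=
  Finsupp.sum_single_index rfl

theorem degD_neg (D : Dv k L) : degD (-D) = - degD D := by
  have h := degD_add D (-D)
  rw [add_neg_cancel, degD_zero] at h
  omega

theorem degD_sub (D E : Dv k L) : degD (D - E) = degD D - degD E := by
  rw [sub_eq_add_neg, degD_add, degD_neg]
  ring

theorem degD_nsmul (n : ℕ) (D : Dv k L) : degD (n • D) = n * degD D := by
  induction n with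
  | zero => simp [degD_zero]
  | succ n ih =>
    rw [succ_nsmul, degD_add, ih]
    push_cast
    ring

theorem degD_nonneg {D : Dv k L} (h : 0 ≤ D) : 0 ≤ degD D :=
  Finset.sum_nonneg fun v _ => h v

theorem degD_mono {D E : Dv k L} (h : D ≤ E) : degD D ≤ degD E := by
  have h1 : 0 ≤ degD (E - D) := degD_nonneg (sub_nonneg.2 h)
  rw [degD_sub] at h1
  omega

theorem eq_of_le_of_degD {D E : Dv k L} (h : D ≤ E) (hd : degD E ≤ degD D) : D = E := by
  classical
  have h1 : 0 ≤ E - D := sub_nonneg.2 h
  have h2 : degD (E - D) = 0 := by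
    have := degD_nonneg h1
    rw [degD_sub] at this ⊢
    omega
  have h3 : ∀ v ∈ (E - D).support, (E - D) v = 0 :=
    (Finset.sum_eq_zero_iff_of_nonneg fun v _ => h1 v).1 h2
  have h4 : E - D = 0 := by
    ext v
    by_cases hv : v ∈ (E - D).support
    · exact h3 v hv
    · exact Finsupp.notMem_support_iff.1 hv
  exact (sub_eq_zero.1 h4).symm

theorem degD_eq_sum {D : Dv k L} (S : Finset (Place k L)) (hS : ∀ v, v ∉ S → D v = 0) :
    degD D = ∑ v ∈ S, D v := by
  classical
  refine Finsupp.sum_of_support_subset D ?_ _ (fun _ _ => rfl)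
  intro v hv
  by_contra h
  exact (Finsupp.mem_support_iff.1 hv) (hS v h)

@[simp] theorem prin_apply (hN : IsFunctionField k L) (f : L) (v : Place k L) :
    prin hN f v = v.ord f := rfl

theorem degD_prin [IsAlgClosed k] (hN : IsFunctionField k L) (f : L) : degD (prin hN f) = 0 := by
  obtain ⟨S, h1, h2⟩ := hN.product_formula f
  rw [degD_eq_sum S]
  · rw [← h2]
    refine Finset.sum_congr rfl fun v _ => ?_
    rw [prin_apply, deg_eq_one hN, Nat.cast_one, mul_one]
  · intro v hv
    by_contra h
    exact hv ((h1 v).2 h)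

theorem prin_mul (hN : IsFunctionField k L) {f g : L} (hf : f ≠ 0) (hg : g ≠ 0) :
    prin hN (f * g) = prin hN f + prin hN g := by
  ext v
  rw [Finsupp.add_apply, prin_apply, prin_apply, prin_apply, v.ord_mul hf hg]

theorem prin_inv (hN : IsFunctionField k L) (f : L) : prin hN f⁻¹ = - prin hN f := by
  ext v
  rw [Finsupp.neg_apply, prin_apply, prin_apply, v.ord_inv]

theorem mem_Lsp_iff_ord (D : Dv k L) {f : L} (hf : f ≠ 0) :
    f ∈ Lsp D ↔ ∀ v : Place k L, - D v ≤ v.ord f := by
  rw [mem_Lsp]
  exact forall_congr' fun v => val_le_exp_iff v f hf (D v)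

theorem mem_Lsp_iff_prin (hN : IsFunctionField k L) (D : Dv k L) {f : L} (hf : f ≠ 0) :
    f ∈ Lsp D ↔ 0 ≤ D + prin hN f := by
  rw [mem_Lsp_iff_ord D hf]
  constructor
  · intro h v
    have := h v
    rw [Finsupp.add_apply, prin_apply, Finsupp.zero_apply]
    omega
  · intro h v
    have := h v
    rw [Finsupp.add_apply, prin_apply, Finsupp.zero_apply] at this
    omega

theorem Lsp_mono {D E : Dv k L} (h : D ≤ E) : Lsp D ≤ Lsp E := by
  intro f hf
  rw [mem_Lsp] at hf ⊢
  exact fun v => (hf v).trans (WithZero.exp_le_exp.2 (h v))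

theorem Lsp_eq_bot [IsAlgClosed k] (hN : IsFunctionField k L) {D : Dv k L} (h : degD D < 0) :
    Lsp D = ⊥ := by
  rw [eq_bot_iff]
  intro f hf
  by_contra h0
  have hf0 : f ≠ 0 := h0
  have h1 := degD_nonneg ((mem_Lsp_iff_prin hN D hf0).1 hf)
  rw [degD_add, degD_prin] at h1
  omega

/-- the residue map on functions with bounded pole order -/
noncomputable def cutMap (v : Place k L) (n : ℤ) (W : Submodule k L) (hW : W ≤ v.filt (n + 1))
    (π : L) (hπ : v.val π = WithZero.exp (-1 : ℤ)) : W →ₗ[k] v.resField :=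
  have hmem : ∀ f ∈ W, f * π ^ (n + 1) ∈ v.ring := by
    intro f hf
    have h1 : v.val f ≤ WithZero.exp (n + 1) := hW hf
    rw [v.mem_ring, map_mul, map_zpow₀, hπ, ← WithZero.exp_zsmul]
    calc v.val f * WithZero.exp ((n + 1) • (-1 : ℤ)) ≤
          WithZero.exp (n + 1) * WithZero.exp ((n + 1) • (-1 : ℤ)) := by gcongr
      _ = 1 := by
          rw [← WithZero.exp_add]
          simp
  { toFun := fun f => v.res ((f : L) * π ^ (n + 1))
    map_add' := by
      intro f g
      rw [← v.res_add (hmem _ f.2) (hmem _ g.2), ← add_mul]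
      rfl
    map_smul' := by
      intro c f
      have h1 : ((c • f : W) : L) * π ^ (n + 1) = algebraMap k L c * ((f : L) * π ^ (n + 1)) := by
        rw [Submodule.coe_smul, Algebra.smul_def, mul_assoc]
      rw [h1, v.res_mul (v.ring.algebraMap_mem c) (hmem _ f.2), v.res_algebraMap,
        RingHom.id_apply, Algebra.smul_def] }

theorem ker_cutMap (v : Place k L) (n : ℤ) (W : Submodule k L) (hW : W ≤ v.filt (n + 1))
    (π : L) (hπ : v.val π = WithZero.exp (-1 : ℤ)) (f : W) :
    f ∈ LinearMap.ker (cutMap v n W hW π hπ) ↔ (f : L) ∈ v.filt n := by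
  have hmem : (f : L) * π ^ (n + 1) ∈ v.ring := by
    have h1 : v.val (f : L) ≤ WithZero.exp (n + 1) := hW f.2
    rw [v.mem_ring, map_mul, map_zpow₀, hπ, ← WithZero.exp_zsmul]
    calc v.val (f : L) * WithZero.exp ((n + 1) • (-1 : ℤ)) ≤
          WithZero.exp (n + 1) * WithZero.exp ((n + 1) • (-1 : ℤ)) := by gcongr
      _ = 1 := by
          rw [← WithZero.exp_add]
          simp
  rw [LinearMap.mem_ker]
  change v.res ((f : L) * π ^ (n + 1)) = 0 ↔ _
  rw [v.res_eq_zero_iff hmem, map_mul, map_zpow₀, hπ, ← WithZero.exp_zsmul, v.mem_filt]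
  by_cases h6 : (f : L) = 0
  · rw [h6, map_zero, zero_mul]
    exact ⟨fun _ => zero_le, fun _ => zero_lt_one⟩
  · have h7 : v.val (f : L) ≠ 0 := by simpa using h6
    rw [← WithZero.exp_log h7, ← WithZero.exp_add, ← WithZero.exp_zero, WithZero.exp_lt_exp,
      WithZero.exp_le_exp]
    simp only [smul_eq_mul]
    omega

theorem finite_of_cut (v : Place k L) (hv : Module.Finite k v.resField) (n : ℤ)
    (W W' : Submodule k L) (hW : W ≤ v.filt (n + 1)) (hW' : W ⊓ v.filt n ≤ W')
    [FiniteDimensional k W'] : FiniteDimensional k W := by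
  obtain ⟨π, hπ0, hπ⟩ := v.exists_uniformizer
  let T := cutMap v n W hW π hπ
  have h1 : ∀ f : LinearMap.ker T, ((f : W) : L) ∈ W' := fun f =>
    hW' ⟨(f : W).2, (ker_cutMap v n W hW π hπ f).1 f.2⟩
  let ι : LinearMap.ker T →ₗ[k] W' :=
    { toFun := fun f => ⟨((f : W) : L), h1 f⟩
      map_add' := fun f g => rfl
      map_smul' := fun c f => rfl }
  have hι : Function.Injective ι := by
    intro f g hfg
    have h8 : ((f : W) : L) = ((g : W) : L) := congrArg (fun z : W' => (z : L)) hfg
    exact Subtype.ext (Subtype.ext h8)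
  haveI : FiniteDimensional k (LinearMap.ker T) := FiniteDimensional.of_injective ι hι
  haveI : FiniteDimensional k (W ⧸ LinearMap.ker T) :=
    FiniteDimensional.of_injective _ (LinearMap.ker_eq_bot.1 (Submodule.ker_liftQ_eq_bot' _ T rfl))
  exact Module.Finite.of_submodule_quotient (LinearMap.ker T)

theorem exists_a_place (hN : IsFunctionField k L) : Nonempty (Place k L) := by
  obtain ⟨t, ht⟩ := exists_transcendental hN
  obtain ⟨S, hS, hsum, hpos⟩ := hN.zeros t ht
  have hne : S.Nonempty := by
    rw [Finset.nonempty_iff_ne_empty]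
    rintro rfl
    rw [Finset.sum_empty] at hsum
    omega
  exact ⟨hne.choose⟩

theorem Lsp_le_filt (D : Dv k L) (v : Place k L) : Lsp D ≤ v.filt (D v) :=
  iInf_le (fun v : Place k L => v.filt (D v)) v

theorem Lsp_inf_filt (D : Dv k L) (v : Place k L) (n : ℤ) (hn : 0 ≤ n) :
    Lsp (D + Finsupp.single v n) ⊓ v.filt (D v) = Lsp D := by
  classical
  apply le_antisymm
  · rintro f ⟨h1, h2⟩
    rw [SetLike.mem_coe, mem_Lsp] at h1
    rw [mem_Lsp]
    intro w
    by_cases hw : w = v
    · subst hw
      exact h2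
    · have := h1 w
      rwa [Finsupp.add_apply, Finsupp.single_eq_of_ne hw, add_zero] at this
  · refine le_inf (Lsp_mono ?_) (Lsp_le_filt D v)
    intro w
    rw [Finsupp.add_apply]
    have : 0 ≤ (Finsupp.single v n : Dv k L) w := by
      rw [Finsupp.single_apply]
      split_ifs <;> omega
    omega

theorem finite_Lsp [IsAlgClosed k] (hN : IsFunctionField k L) (D : Dv k L) :
    FiniteDimensional k (Lsp D) := by
  obtain ⟨v⟩ := exists_a_place hN
  have key : ∀ n : ℕ, ∀ D : Dv k L, degD D < n → FiniteDimensional k (Lsp D) := by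
    intro n
    induction n with
    | zero =>
      intro D hD
      rw [Lsp_eq_bot hN (by simpa using hD)]
      infer_instance
    | succ n ih =>
      intro D hD
      have h1 : degD (D - Finsupp.single v 1) < n := by
        rw [degD_sub, degD_single]
        push_cast at hD
        omega
      haveI := ih _ h1
      have h2 := Lsp_inf_filt (D - Finsupp.single v 1) v 1 zero_le_one
      rw [sub_add_cancel] at h2
      have h3 : (D - Finsupp.single v 1 : Dv k L) v = D v - 1 := by simp
      rw [h3] at h2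
      refine finite_of_cut v (v.finite_resField hN) (D v - 1) (Lsp D)
        (Lsp (D - Finsupp.single v 1)) ?_ h2.le
      rw [sub_add_cancel]
      exact Lsp_le_filt D v
  refine key (degD D + 1).toNat D ?_
  have := Int.self_le_toNat (degD D + 1)
  omega

theorem ell_nonneg (D : Dv k L) : 0 ≤ ell D := Int.natCast_nonneg _

theorem ell_mono [IsAlgClosed k] (hN : IsFunctionField k L) {D E : Dv k L} (h : D ≤ E) :
    ell D ≤ ell E := by
  haveI := finite_Lsp hN E
  unfold ell
  exact_mod_cast Submodule.finrank_mono (Lsp_mono h)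

theorem ell_add_single [IsAlgClosed k] (hN : IsFunctionField k L) (D : Dv k L) (v : Place k L) :
    ell (D + Finsupp.single v 1) ≤ ell D + 1 := by
  haveI := finite_Lsp hN (D + Finsupp.single v 1)
  have h1 := v.finrank_le_cut (v.finite_resField hN) (D v) (Lsp (D + Finsupp.single v 1)) (by
    have := Lsp_le_filt (D + Finsupp.single v 1) v
    simpa using this)
  rw [Lsp_inf_filt D v 1 zero_le_one, deg_eq_one hN] at h1
  unfold ell
  exact_mod_cast h1

theorem ell_mono_single [IsAlgClosed k] (hN : IsFunctionField k L) (D : Dv k L) (v : Place k L) :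
    ell D ≤ ell (D + Finsupp.single v 1) ∧ ell (D + Finsupp.single v 1) ≤ ell D + 1 := by
  classical
  refine ⟨ell_mono hN ?_, ell_add_single hN D v⟩
  intro w
  rw [Finsupp.add_apply]
  have : 0 ≤ (Finsupp.single v 1 : Dv k L) w := by
    rw [Finsupp.single_apply]
    split_ifs <;> omega
  omega

/-- `deg D - ell D` is monotone. -/
theorem sub_ell_mono [IsAlgClosed k] (hN : IsFunctionField k L) {D E : Dv k L} (h : D ≤ E) :
    degD D - ell D ≤ degD E - ell E := by
  classical
  have key : ∀ n : ℕ, ∀ D E : Dv k L, D ≤ E → degD E - degD D = n →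
      degD D - ell D ≤ degD E - ell E := by
    intro n
    induction n with
    | zero =>
      intro D E h hd
      rw [eq_of_le_of_degD h (by push_cast at hd; omega)]
    | succ n ih =>
      intro D E h hd
      obtain ⟨v, hv⟩ : ∃ v, D v < E v := by
        by_contra hcon
        push Not at hcon
        have : D = E := le_antisymm h hcon
        rw [this] at hd
        push_cast at hd
        omega
      have h1 : D + Finsupp.single v 1 ≤ E := by
        intro w
        rw [Finsupp.add_apply, Finsupp.single_apply]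
        split_ifs with hw
        · subst hw
          omega
        · have := h w
          omega
      have h2 := ih (D + Finsupp.single v 1) E h1 (by
        rw [degD_add, degD_single]
        push_cast at hd
        omega)
      have h3 := (ell_mono_single hN D v).2
      rw [degD_add, degD_single] at h2
      omega
  have h1 := degD_mono h
  refine key (degD E - degD D).toNat D E h ?_
  rw [Int.toNat_of_nonneg (by omega)]

theorem ell_pos_iff [IsAlgClosed k] (hN : IsFunctionField k L) (D : Dv k L) :
    0 < ell D ↔ ∃ f ∈ Lsp D, f ≠ 0 := by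
  haveI := finite_Lsp hN D
  unfold ell
  rw [Int.natCast_pos, Module.finrank_pos_iff, nontrivial_iff]
  constructor
  · rintro ⟨a, b, hab⟩
    by_cases ha : (a : L) = 0
    · refine ⟨b, b.2, fun hb => hab (Subtype.ext ?_)⟩
      rw [ha, hb]
    · exact ⟨a, a.2, ha⟩
  · rintro ⟨f, hf, h0⟩
    exact ⟨⟨f, hf⟩, 0, fun h => h0 (congrArg Subtype.val h)⟩

theorem ell_eq_zero [IsAlgClosed k] (hN : IsFunctionField k L) {D : Dv k L} (h : degD D < 0) :
    ell D = 0 := by
  unfold ell
  rw [Lsp_eq_bot hN h, finrank_bot]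
  rfl

theorem mem_Lsp_zero [IsAlgClosed k] (hN : IsFunctionField k L) (f : L) :
    f ∈ Lsp (0 : Dv k L) ↔ ∃ c : k, algebraMap k L c = f := by
  constructor
  · intro hf
    obtain ⟨v⟩ := exists_a_place hN
    have h1 : v.val f ≤ 1 := by
      have := (mem_Lsp _ f).1 hf v
      simpa using this
    obtain ⟨c, hc⟩ := exists_res_val hN v f h1
    refine ⟨c, ?_⟩
    have h2 : f - algebraMap k L c ∈ Lsp (- Finsupp.single v 1 : Dv k L) := by
      rw [mem_Lsp]
      intro w
      by_cases hw : w = v
      · subst hw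
        by_cases h0 : f - algebraMap k L c = 0
        · rw [h0, map_zero]; exact zero_le
        · rw [val_le_exp_iff w _ h0]
          have := (w.ord_pos_iff h0).2 hc
          simp only [Finsupp.neg_apply, Finsupp.single_eq_same]
          omega
      · have h3 : (- Finsupp.single v 1 : Dv k L) w = 0 := by
          rw [Finsupp.neg_apply, Finsupp.single_eq_of_ne hw, neg_zero]
        rw [h3, WithZero.exp_zero]
        refine (w.val.map_sub _ _).trans (max_le ?_ (w.val_algebraMap_le c))
        have := (mem_Lsp _ f).1 hf w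
        simpa using this
    rw [Lsp_eq_bot hN (by rw [degD_neg, degD_single]; norm_num), Submodule.mem_bot] at h2
    exact (sub_eq_zero.1 h2).symm
  · rintro ⟨c, rfl⟩
    rw [mem_Lsp]
    intro v
    simpa using v.val_algebraMap_le c

theorem ell_zero [IsAlgClosed k] (hN : IsFunctionField k L) : ell (0 : Dv k L) = 1 := by
  have h1 : Lsp (0 : Dv k L) = LinearMap.range (Algebra.linearMap k L) := by
    ext f
    rw [mem_Lsp_zero hN, LinearMap.mem_range]
    rfl
  unfold ell
  rw [h1, LinearMap.finrank_range_of_inj (algebraMap k L).injective, Module.finrank_self]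
  rfl

theorem ell_add_prin [IsAlgClosed k] (hN : IsFunctionField k L) {f : L} (hf : f ≠ 0) (D : Dv k L) :
    ell (D + prin hN f) = ell D := by
  have key : ∀ (f : L), f ≠ 0 → ∀ D : Dv k L, ell (D + prin hN f) ≤ ell D := by
    intro f hf D
    haveI := finite_Lsp hN D
    have hmem : ∀ g ∈ Lsp (D + prin hN f), f * g ∈ Lsp D := by
      intro g hg
      by_cases hg0 : g = 0
      · rw [hg0, mul_zero]; exact zero_mem _
      rw [mem_Lsp_iff_prin hN _ hg0] at hg
      rw [mem_Lsp_iff_prin hN _ (mul_ne_zero hf hg0), prin_mul hN hf hg0, ← add_assoc]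
      exact hg
    let ι : Lsp (D + prin hN f) →ₗ[k] Lsp D :=
      { toFun := fun g => ⟨f * (g : L), hmem g g.2⟩
        map_add' := fun a b => Subtype.ext (mul_add f (a : L) (b : L))
        map_smul' := fun c a => Subtype.ext (mul_smul_comm c f (a : L)) }
    have hι : Function.Injective ι := by
      intro a b hab
      have h1 : f * (a : L) = f * (b : L) := congrArg (fun z : Lsp D => (z : L)) hab
      exact Subtype.ext (mul_left_cancel₀ hf h1)
    unfold ell
    exact_mod_cast LinearMap.finrank_le_finrank_of_injective hι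
  refine le_antisymm (key f hf D) ?_
  have h1 := key f⁻¹ (inv_ne_zero hf) (D + prin hN f)
  rwa [prin_inv, add_neg_cancel_right] at h1

/-- Riemann's theorem. -/
theorem exists_riemann [IsAlgClosed k] (hN : IsFunctionField k L) :
    ∃ γ : ℤ, ∀ D : Dv k L, degD D - ell D ≤ γ := by
  classical
  obtain ⟨s, hs⟩ := exists_transcendental hN
  have hs0 : s ≠ 0 := transcendental_ne_zero hs
  haveI := hN.finiteDimensional s hs
  obtain ⟨T, hT, hsum, hpos⟩ := hN.zeros s⁻¹ (transcendental_inv hs)
  rw [finrank_inv] at hsum hpos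
  obtain ⟨n, hnn⟩ : ∃ n, Module.finrank k⟮s⟯ L = n := ⟨_, rfl⟩
  rw [hnn] at hsum hpos
  obtain ⟨x, hxi, hxint⟩ : ∃ x : Fin n → L, LinearIndependent k⟮s⟯ x ∧ ∀ i, IntOver k s (x i) :=
    hnn ▸ exists_integral_basis s hs
  have hx0 : ∀ i, x i ≠ 0 := fun i => hxi.ne_zero i
  -- the pole divisor
  let B : Dv k L := Finsupp.ofSupportFinite (fun v => if v ∈ T then - v.ord s else 0) (by
    refine T.finite_toSet.subset ?_
    intro v hv
    by_contra h
    apply hv
    exact if_neg h)
  have hBT : ∀ v ∈ T, B v = - v.ord s := fun v hv => if_pos hv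
  have hBT' : ∀ v, v ∉ T → B v = 0 := fun v hv => if_neg hv
  have hB0 : 0 ≤ B := by
    intro v
    by_cases hv : v ∈ T
    · rw [hBT v hv, Finsupp.zero_apply]
      have h1 := (hT v).1 hv
      have h2 := (v.ord_pos_iff (inv_ne_zero hs0)).2 h1
      rw [v.ord_inv] at h2
      omega
    · rw [hBT' v hv, Finsupp.zero_apply]
  have hBd : degD B = n := by
    rw [degD_eq_sum T hBT', ← hsum]
    refine Finset.sum_congr rfl fun v hv => ?_
    rw [hBT v hv, v.ord_inv, deg_eq_one hN, Nat.cast_one, mul_one]
  have hreg : ∀ v, v ∉ T → v.val s ≤ 1 := by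
    intro v hv
    rw [hT, not_lt, map_inv₀] at hv
    by_contra h
    rw [not_le] at h
    exact absurd hv (not_le.2 (inv_lt_one_of_one_lt₀ h))
  obtain ⟨j, hj⟩ : ∃ j : ℕ, ∀ v ∈ T, ∀ i, - v.ord (x i) ≤ j := by
    refine ⟨∑ v ∈ T, ∑ i, (- v.ord (x i)).toNat, fun v hv i => ?_⟩
    have h1 : (- v.ord (x i)).toNat ≤ ∑ i, (- v.ord (x i)).toNat :=
      Finset.single_le_sum (f := fun i => (- v.ord (x i)).toNat)
        (fun _ _ => Nat.zero_le _) (Finset.mem_univ i)
    have h2 : ∑ i, (- v.ord (x i)).toNat ≤ ∑ v ∈ T, ∑ i, (- v.ord (x i)).toNat :=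
      Finset.single_le_sum (f := fun v : Place k L => ∑ i, (- v.ord (x i)).toNat)
        (fun _ _ => Nat.zero_le _) hv
    have h3 := Int.self_le_toNat (- v.ord (x i))
    have h4 : ((- v.ord (x i)).toNat : ℤ) ≤
        ((∑ v ∈ T, ∑ i, (- v.ord (x i)).toNat : ℕ) : ℤ) := by
      exact_mod_cast h1.trans h2
    exact h3.trans h4
  let C : Dv k L := Finsupp.ofSupportFinite (fun v => if v ∈ T then (j : ℤ) else 0) (by
    refine T.finite_toSet.subset ?_
    intro v hv
    by_contra h
    apply hv
    exact if_neg h)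
  have hCT : ∀ v ∈ T, C v = j := fun v hv => if_pos hv
  have hCT' : ∀ v, v ∉ T → C v = 0 := fun v hv => if_neg hv
  have hC0 : 0 ≤ C := by
    intro v
    by_cases hv : v ∈ T
    · rw [hCT v hv, Finsupp.zero_apply]
      omega
    · rw [hCT' v hv, Finsupp.zero_apply]
  have h1 : ∀ m : ℕ, (n : ℤ) * (m + 1) ≤ ell (m • B + C) := by
    intro m
    haveI := finite_Lsp hN (m • B + C)
    have hF : LinearIndependent k (fun p : Fin (m + 1) × Fin n => s ^ (p.1 : ℕ) * x p.2) :=
      linearIndependent_pow_mul s hs x hxi (m + 1)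
    have hmem : ∀ p : Fin (m + 1) × Fin n, s ^ (p.1 : ℕ) * x p.2 ∈ Lsp (m • B + C) := by
      intro p
      rw [mem_Lsp]
      intro v
      rw [Finsupp.add_apply, Finsupp.smul_apply]
      by_cases hv : v ∈ T
      · rw [hBT v hv, hCT v hv, val_le_exp_iff v _ (mul_ne_zero (pow_ne_zero _ hs0) (hx0 _)),
          v.ord_mul (pow_ne_zero _ hs0) (hx0 _)]
        have h2 : v.ord (s ^ (p.1 : ℕ)) = (p.1 : ℕ) * v.ord s := by
          unfold Place.ord
          rw [map_pow, WithZero.log_pow, nsmul_eq_mul]
          ring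
        rw [h2]
        have h3 := hj v hv p.2
        have h4 : (p.1 : ℕ) ≤ m := Nat.lt_succ_iff.1 p.1.2
        have h4' : ((p.1 : ℕ) : ℤ) ≤ m := by exact_mod_cast h4
        have h5 : v.ord s ≤ 0 := by
          have := hB0 v
          rw [hBT v hv, Finsupp.zero_apply] at this
          omega
        rw [nsmul_eq_mul]
        nlinarith
      · rw [hBT' v hv, hCT' v hv, smul_zero, add_zero, WithZero.exp_zero, map_mul, map_pow]
        exact mul_le_one' (pow_le_one' (hreg v hv) _) ((hxint p.2).mem_ring v (hreg v hv))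
    have hF' : LinearIndependent k (fun p : Fin (m + 1) × Fin n =>
        (⟨s ^ (p.1 : ℕ) * x p.2, hmem p⟩ : Lsp (m • B + C))) := by
      apply LinearIndependent.of_comp (Lsp (m • B + C)).subtype
      exact hF
    have h5 := hF'.fintype_card_le_finrank
    rw [Fintype.card_prod, Fintype.card_fin, Fintype.card_fin] at h5
    unfold ell
    have h6 : (((m + 1) * n : ℕ) : ℤ) ≤ (Module.finrank k (Lsp (m • B + C)) : ℤ) := by
      exact_mod_cast h5
    push_cast at h6
    linarith
  have h2 : ∀ m : ℕ, degD (m • B) - ell (m • B) ≤ degD C - n := by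
    intro m
    have h3 : m • B ≤ m • B + C := le_add_of_nonneg_right hC0
    have h4 := sub_ell_mono hN h3
    have h5 := h1 m
    have h6 : degD (m • B + C) = m * n + degD C := by
      rw [degD_add, degD_nsmul, hBd]
    rw [h6] at h4
    have h7 : (n : ℤ) * (m + 1) = m * n + n := by ring
    omega
  refine ⟨degD C - n, fun D => ?_⟩
  -- pass to the positive part
  let E : Dv k L := D.mapRange (fun z => max z 0) (by simp)
  have hDE : D ≤ E := fun v => by
    rw [Finsupp.mapRange_apply]
    exact le_max_left _ _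
  have hE0 : 0 ≤ E := fun v => by
    rw [Finsupp.mapRange_apply, Finsupp.zero_apply]
    exact le_max_right _ _
  refine (sub_ell_mono hN hDE).trans ?_
  let m : ℕ := (degD E + degD C - n + 1).toNat
  have hm := Int.self_le_toNat (degD E + degD C - n + 1)
  have h3 : m • B - E ≤ m • B := sub_le_self _ hE0
  have h4 := sub_ell_mono hN h3
  have h5 := h2 m
  have h6 : degD (m • B) = m * n := by rw [degD_nsmul, hBd]
  have h7 : 0 < ell (m • B - E) := by
    rw [degD_sub, h6] at h4
    have h8 : (m : ℤ) ≤ m * n := by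
      have : (1 : ℤ) ≤ n := by exact_mod_cast hpos
      nlinarith [Int.natCast_nonneg m]
    rw [h6] at h5
    have h9 : degD E + degD C - n + 1 ≤ (m : ℤ) := hm
    omega
  obtain ⟨f, hf, hf0⟩ := (ell_pos_iff hN _).1 h7
  rw [mem_Lsp_iff_prin hN _ hf0] at hf
  have h8 : E ≤ m • B + prin hN f := by
    have h9 : m • B - E + prin hN f = (m • B + prin hN f) - E := by abel
    rw [h9] at hf
    exact sub_nonneg.1 hf
  have h9 := sub_ell_mono hN h8
  rw [degD_add, degD_prin, add_zero, ell_add_prin hN hf0] at h9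
  exact h9.trans h5

theorem bddAbove_range [IsAlgClosed k] (hN : IsFunctionField k L) :
    BddAbove (Set.range fun D : Dv k L => degD D - ell D) := by
  obtain ⟨γ, hγ⟩ := exists_riemann hN
  exact ⟨γ, by rintro _ ⟨D, rfl⟩; exact hγ D⟩

/-- Riemann's inequality -/
theorem riemann [IsAlgClosed k] (hN : IsFunctionField k L) (D : Dv k L) :
    degD D + 1 - genus k L ≤ ell D := by
  have h : degD D - ell D ≤ sSup (Set.range fun D : Dv k L => degD D - ell D) :=
    le_csSup (bddAbove_range hN) (Set.mem_range_self D)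
  unfold genus
  omega

theorem genus_nonneg [IsAlgClosed k] (hN : IsFunctionField k L) : 0 ≤ genus k L := by
  have h := riemann hN (0 : Dv k L)
  rw [degD_zero, ell_zero hN] at h
  omega

theorem exists_genus_eq [IsAlgClosed k] (hN : IsFunctionField k L) :
    ∃ D : Dv k L, ell D = degD D + 1 - genus k L := by
  have h : sSup (Set.range fun D : Dv k L => degD D - ell D) ∈
      Set.range fun D : Dv k L => degD D - ell D :=
    Int.csSup_mem ⟨_, Set.mem_range_self 0⟩ (bddAbove_range hN)
  obtain ⟨D, hD⟩ := h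
  refine ⟨D, ?_⟩
  unfold genus
  simp only at hD
  omega

/-- `deg D - ell D` takes its maximal value on all divisors of large degree. -/
theorem exists_ell_eq [IsAlgClosed k] (hN : IsFunctionField k L) :
    ∃ c : ℤ, ∀ D : Dv k L, c ≤ degD D → ell D = degD D + 1 - genus k L := by
  obtain ⟨A, hA⟩ := exists_genus_eq hN
  refine ⟨degD A + genus k L, fun D hD => ?_⟩
  have h1 := riemann hN (D - A)
  rw [degD_sub] at h1
  have h2 : 0 < ell (D - A) := by omega
  obtain ⟨f, hf, hf0⟩ := (ell_pos_iff hN _).1 h2
  rw [mem_Lsp_iff_prin hN _ hf0] at hf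
  have h3 : A ≤ D + prin hN f := by
    have h9 : D - A + prin hN f = (D + prin hN f) - A := by abel
    rw [h9] at hf
    exact sub_nonneg.1 hf
  have h4 := sub_ell_mono hN h3
  rw [degD_add, degD_prin, add_zero, ell_add_prin hN hf0] at h4
  have h5 := riemann hN D
  omega

end Pool.Agent.Helper47.RR
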